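import Pool.Agent.H468R2.KA.P_F_perm
import Pool.Agent.H468R2.KA.P_F_top
import Pool.Agent.H468R2.KA.P_F_vt
import Pool.Agent.H468R2.MA.P_T_BF
import Pool.Agent.H468R2.MA.P_T_C
import Pool.Agent.H468R2.MA.P_T_CH
import Pool.Agent.H468R2.MA.P_T_LOC
import Pool.Agent.H468R2.MA.P_T_LOC1
import Pool.Agent.H468R2.MA.P_T_SC
import Pool.Agent.H468R2.MA.P_T_GEN

/-!
# Generic ergodicity of `ℓ¹` against `S_∞`, ready for use
-/

set_option autoImplicit false

open Filter Topology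

namespace Pool.Agent.R604

open Pool.Agent.H468R2

universe v

theorem erg : MA.T_ERG :=
  MA.t_T_ERG (MA.t_T_C MA.t_T_SC (MA.t_T_LOC MA.t_T_SC (MA.t_T_LOC1 MA.t_T_SC))) MA.t_T_CH

theorem perm : KA.F_perm.{v} := KA.t_F_perm KA.t_F_top (KA.t_F_vt KA.t_F_top) erg

/-- Generic ergodicity: if `f` is a Borel map from `ℝ^ℕ` to a space with a Borel action of `S_∞`
which sends `ℓ¹`-equivalent points into one orbit, then `f x`, `f y` are in one orbit for some pair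
`x`, `y` such that for infinitely many `k` simultaneously `x k` is close to `0` and `y k` is close
to `π`. -/
theorem exists_gen (Z : Type v) [MeasurableSpace Z] [StandardBorelSpace Z]
    [MulAction (Equiv.Perm ℕ) Z]
    (hZ : @Measurable _ _ (KA.permMS.prod inferInstance) _ (fun p : Equiv.Perm ℕ × Z => p.1 • p.2))
    (f : (ℕ → ℝ) → Z) (hf : Measurable f)
    (hinv : ∀ x y : ℕ → ℝ, Summable (fun n => |x n - y n|) → ∃ π : Equiv.Perm ℕ, π • f x = f y) :
    ∃ x y : ℕ → ℝ, MA.Gen x y ∧ ∃ π : Equiv.Perm ℕ, π • f x = f y := by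
  obtain ⟨C, hC, h⟩ := perm Z hZ f hf hinv
  obtain ⟨x, hx, y, hy, hxy⟩ := MA.t_T_GEN C hC
  exact ⟨x, y, hxy, h x hx y hy⟩

/-- The same for countable structures. -/
theorem exists_gen_iso {ρ : Type} [Countable ρ] {k : ρ → ℕ} (f : (ℕ → ℝ) → MA.RS ρ k)
    (hf : MA.Hm f) : ∃ x y : ℕ → ℝ, MA.Gen x y ∧ MA.Iso (f x) (f y) := by
  obtain ⟨C, hC, h⟩ := erg ρ k f hf
  obtain ⟨x, hx, y, hy, hxy⟩ := MA.t_T_GEN C hC
  exact ⟨x, y, hxy, h x hx y hy⟩

end Pool.Agent.R604
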